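import Mathlib

open Finset

namespace Q12.NA

/-- Greedy hitting set. -/
theorem exists_hit {β : Type*} [DecidableEq β] (V : Finset β) (k : ℕ) (𝒯 : Finset (Finset β))
    (hV : ∀ T ∈ 𝒯, T ⊆ V) (hk : ∀ T ∈ 𝒯, k ≤ T.card) (hkV : k ≤ V.card) (r : ℕ) :
    ∃ W : Finset β, W ⊆ V ∧ W.card ≤ r ∧
      ((𝒯.filter (fun T => Disjoint T W)).card : ℝ) ≤ 𝒯.card * (1 - (k : ℝ) / V.card) ^ r := by
  induction r with
  | zero => exact ⟨∅, by simp, by simp, by simp⟩
  | succ r ih =>
    obtain ⟨W, hWV, hWr, hW⟩ := ih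
    by_cases hV0 : V.card = 0
    · refine ⟨W, hWV, by omega, ?_⟩
      simpa [hV0] using hW
    have hVpos : (0 : ℝ) < V.card := by exact_mod_cast Nat.pos_of_ne_zero hV0
    set 𝒰 := 𝒯.filter (fun T => Disjoint T W) with h𝒰
    have hcount : ∑ v ∈ V, (𝒰.filter (fun T => v ∈ T)).card = ∑ T ∈ 𝒰, T.card := by
      have h1 := Finset.sum_card_bipartiteAbove_eq_sum_card_bipartiteBelow
        (s := V) (t := 𝒰) (fun v T => v ∈ T)
      simp only [Finset.bipartiteAbove, Finset.bipartiteBelow] at h1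
      rw [h1]
      refine Finset.sum_congr rfl fun T hT => ?_
      congr 1
      ext v
      simp only [Finset.mem_filter]
      constructor
      · exact fun h => h.2
      · intro h
        exact ⟨hV T (Finset.mem_filter.1 hT).1 h, h⟩
    have hge : k * 𝒰.card ≤ ∑ v ∈ V, (𝒰.filter (fun T => v ∈ T)).card := by
      rw [hcount, mul_comm, ← smul_eq_mul, ← Finset.sum_const]
      exact Finset.sum_le_sum fun T hT => hk T (Finset.mem_filter.1 hT).1
    obtain ⟨v, hv, hvk⟩ : ∃ v ∈ V, k * 𝒰.card ≤ V.card * (𝒰.filter (fun T => v ∈ T)).card := by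
      by_contra hcon
      push Not at hcon
      have h2 : V.card * ∑ v ∈ V, (𝒰.filter (fun T => v ∈ T)).card
          < ∑ v ∈ V, k * 𝒰.card := by
        rw [Finset.mul_sum]
        exact Finset.sum_lt_sum_of_nonempty (Finset.card_pos.1 (Nat.pos_of_ne_zero hV0)) hcon
      rw [Finset.sum_const, smul_eq_mul] at h2
      have h3 := Nat.lt_of_mul_lt_mul_left h2
      omega
    refine ⟨insert v W, Finset.insert_subset hv hWV, (Finset.card_insert_le _ _).trans (by omega), ?_⟩
    have hsplit : 𝒯.filter (fun T => Disjoint T (insert v W)) = 𝒰.filter (fun T => ¬ v ∈ T) := by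
      ext T
      simp only [h𝒰, Finset.mem_filter, Finset.disjoint_insert_right]
      tauto
    have hcard : (𝒰.filter (fun T => v ∈ T)).card + (𝒰.filter (fun T => ¬ v ∈ T)).card = 𝒰.card :=
      Finset.card_filter_add_card_filter_not _
    rw [hsplit]
    have hcard' : ((𝒰.filter (fun T => v ∈ T)).card : ℝ) + (𝒰.filter (fun T => ¬ v ∈ T)).card
        = 𝒰.card := by exact_mod_cast hcard
    have hvk' : (k : ℝ) * 𝒰.card ≤ V.card * (𝒰.filter (fun T => v ∈ T)).card := by
      exact_mod_cast hvk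
    have hstep : ((𝒰.filter (fun T => ¬ v ∈ T)).card : ℝ) ≤ 𝒰.card * (1 - (k : ℝ) / V.card) := by
      have : (k : ℝ) / V.card * 𝒰.card ≤ (𝒰.filter (fun T => v ∈ T)).card := by
        rw [div_mul_eq_mul_div, div_le_iff₀ hVpos]
        linarith
      linarith
    have h1k : (0 : ℝ) ≤ 1 - (k : ℝ) / V.card := by
      rw [sub_nonneg, div_le_one hVpos]
      exact_mod_cast hkV
    calc ((𝒰.filter (fun T => ¬ v ∈ T)).card : ℝ) ≤ 𝒰.card * (1 - (k : ℝ) / V.card) := hstep
      _ ≤ (𝒯.card * (1 - (k : ℝ) / V.card) ^ r) * (1 - (k : ℝ) / V.card) :=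
          mul_le_mul_of_nonneg_right hW h1k
      _ = 𝒯.card * (1 - (k : ℝ) / V.card) ^ (r + 1) := by ring

theorem choose_le (M t : ℕ) (ht : 1 ≤ t) :
    ((M.choose t : ℕ) : ℝ) ≤ (Real.exp 1 * M / t) ^ t := by
  have h1 : ((M.choose t : ℕ) : ℝ) ≤ (M : ℝ) ^ t / (t.factorial : ℝ) := by
    exact_mod_cast Nat.choose_le_pow_div (α := ℝ) t M
  have h2 : (t : ℝ) ^ t / (t.factorial : ℝ) ≤ Real.exp t := Real.pow_div_factorial_le_exp t (by positivity) t
  have htp : (0 : ℝ) < t := by exact_mod_cast ht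
  have hf : (0 : ℝ) < (t.factorial : ℝ) := by exact_mod_cast Nat.factorial_pos t
  have h3 : (1 : ℝ) / (t.factorial : ℝ) ≤ Real.exp t / (t : ℝ) ^ t := by
    rw [div_le_div_iff₀ hf (by positivity)]
    rw [div_le_iff₀ hf] at h2
    linarith
  calc ((M.choose t : ℕ) : ℝ) ≤ (M : ℝ) ^ t / (t.factorial : ℝ) := h1
    _ = (M : ℝ) ^ t * (1 / (t.factorial : ℝ)) := by ring
    _ ≤ (M : ℝ) ^ t * (Real.exp t / (t : ℝ) ^ t) := mul_le_mul_of_nonneg_left h3 (by positivity)
    _ = (Real.exp 1 * M / t) ^ t := by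
      rw [div_pow, mul_pow, ← Real.exp_nat_mul]
      ring_nf

/-- Extraction of translates which are pairwise disjoint. -/
theorem exists_indep (S B : Finset ℤ) (hS : S.Nonempty) (t : ℕ) (hB : t * S.card ^ 2 ≤ B.card) :
    ∃ Z ⊆ B, Z.card = t ∧ (Finset.image₂ (fun z s => z - s) Z S).card = t * S.card := by
  induction t with
  | zero => exact ⟨∅, by simp, by simp, by simp⟩
  | succ t ih =>
    obtain ⟨Z, hZB, hZt, hZ⟩ := ih (by nlinarith)
    set C := Finset.image₂ (fun x s => x + s) (Finset.image₂ (fun z s => z - s) Z S) S with hC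
    have hCc : C.card ≤ t * S.card ^ 2 := by
      calc C.card ≤ (Finset.image₂ (fun z s => z - s) Z S).card * S.card := Finset.card_image₂_le _ _ _
        _ = t * S.card ^ 2 := by rw [hZ]; ring
    have hlt : C.card < B.card := by
      have : 0 < S.card := Finset.card_pos.2 hS
      have : 0 < S.card ^ 2 := by positivity
      nlinarith
    obtain ⟨z, hzB, hzC⟩ := Finset.exists_mem_notMem_of_card_lt_card hlt
    have hzZ : z ∉ Z := by
      intro hz
      apply hzC
      obtain ⟨s, hs⟩ := hS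
      refine Finset.mem_image₂.2 ⟨z - s, Finset.mem_image₂.2 ⟨z, hz, s, hs, rfl⟩, s, hs, by ring⟩
    refine ⟨insert z Z, Finset.insert_subset hzB hZB, by rw [Finset.card_insert_of_notMem hzZ, hZt], ?_⟩
    have hins : Finset.image₂ (fun z s => z - s) (insert z Z) S
        = (S.image (fun s => z - s)) ∪ Finset.image₂ (fun z s => z - s) Z S := by
      rw [Finset.image₂_insert_left]
    rw [hins, Finset.card_union_of_disjoint, hZ, Finset.card_image_of_injective]
    · ring
    · intro a b hab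
      simpa using hab
    · rw [Finset.disjoint_left]
      intro x hx hx2
      obtain ⟨s, hs, rfl⟩ := Finset.mem_image.1 hx
      apply hzC
      refine Finset.mem_image₂.2 ⟨z - s, hx2, s, hs, by ring⟩

end Q12.NA
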