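import Pool.Agent.Q12.NA.Comb

open Finset Filter Topology

namespace Q12.NA

theorem exists_b (ε : ℝ) (hε : 0 < ε) :
    ∃ b : ℕ, 1 ≤ b ∧ Real.exp 1 * (2 * (b : ℝ) ^ 2 / ε) * Real.exp (-(b * ε / 6)) ≤ 1 / 2 := by
  have h1 := Real.tendsto_pow_mul_exp_neg_atTop_nhds_zero 2
  have h2 : Tendsto (fun b : ℕ => (b : ℝ) * (ε / 6)) atTop atTop :=
    tendsto_natCast_atTop_atTop.atTop_mul_const (by positivity)
  have h3 := h1.comp h2
  have h4 : ∀ᶠ b : ℕ in atTop, ((b : ℝ) * (ε / 6)) ^ 2 * Real.exp (-((b : ℝ) * (ε / 6)))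
      < ε ^ 3 / (144 * Real.exp 1) := by
    have := h3.eventually (gt_mem_nhds (show (0 : ℝ) < ε ^ 3 / (144 * Real.exp 1) by positivity))
    simpa [Function.comp] using this
  obtain ⟨b, hb, hb1⟩ := (h4.and (eventually_ge_atTop 1)).exists
  refine ⟨b, hb1, ?_⟩
  have he : (0 : ℝ) < Real.exp 1 := Real.exp_pos 1
  rw [lt_div_iff₀ (by positivity)] at hb
  have e1 : (b : ℝ) * (ε / 6) = b * ε / 6 := by ring
  rw [e1] at hb
  have e2 : Real.exp 1 * (2 * (b : ℝ) ^ 2 / ε) * Real.exp (-(b * ε / 6))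
      = ((b * ε / 6) ^ 2 * Real.exp (-(b * ε / 6)) * (144 * Real.exp 1)) / (2 * ε ^ 3) := by
    field_simp
    ring
  rw [e2, div_le_div_iff₀ (by positivity) (by norm_num)]
  nlinarith [hb]

theorem exists_M (b : ℕ) (ρ : ℝ) (hρ0 : 0 < ρ) (hρ : ρ < 1) :
    ∀ᶠ M : ℕ in atTop, (M : ℝ) ^ b * ρ ^ M < 1 := by
  have h := tendsto_pow_const_mul_const_pow_of_abs_lt_one b (r := ρ)
    (by rw [abs_of_pos hρ0]; exact hρ)
  exact h.eventually (gt_mem_nhds one_pos)

/-- The covering lemma. -/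
theorem cover (ε : ℝ) (hε : 0 < ε) (hε1 : ε ≤ 1) :
    ∃ b : ℕ, 1 ≤ b ∧ ∃ M0 : ℕ, 1 ≤ M0 ∧ ∀ M : ℕ, M0 ≤ M → ∃ W : Finset ℤ, (W.card : ℝ) ≤ ε * M ∧
      ∀ S : Finset ℤ, S ⊆ Finset.Ico 0 (M : ℤ) → b ≤ S.card →
        (((Finset.Ico 0 (M : ℤ)).filter (fun z => ∀ s ∈ S, z - s ∉ W)).card : ℝ) ≤ ε * M := by
  obtain ⟨b, hb1, hb⟩ := exists_b ε hε
  refine ⟨b, hb1, ?_⟩
  have hbr : (1 : ℝ) ≤ b := by exact_mod_cast hb1
  set ρ : ℝ := (1 / 2 : ℝ) ^ (ε / (2 * (b : ℝ) ^ 2)) with hρdef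
  have hρ0 : 0 < ρ := Real.rpow_pos_of_pos (by norm_num) _
  have hρ1 : ρ < 1 := Real.rpow_lt_one (by norm_num) (by norm_num) (by positivity)
  have hev := exists_M b ρ hρ0 hρ1
  have hev2 : ∀ᶠ M : ℕ in atTop, 2 * (b : ℝ) ^ 2 / ε ≤ M :=
    tendsto_natCast_atTop_atTop.eventually_ge_atTop _
  obtain ⟨M0, hM0⟩ := eventually_atTop.1 (hev.and hev2)
  refine ⟨max M0 1, le_max_right _ _, fun M hM => ?_⟩
  obtain ⟨hA, hBM⟩ := hM0 M ((le_max_left _ _).trans hM)
  have hM1 : (1 : ℝ) ≤ M := by exact_mod_cast (le_max_right _ _).trans hM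
  have hMpos : (0 : ℝ) < M := by linarith
  have hεM : 2 * (b : ℝ) ^ 2 ≤ ε * M := by
    rw [div_le_iff₀ hε] at hBM
    linarith
  have hb2 : (1 : ℝ) ≤ (b : ℝ) ^ 2 := one_le_pow₀ hbr
  -- t
  set t : ℕ := ⌊ε * M / (b : ℝ) ^ 2⌋₊ with ht
  have ht_le : (t : ℝ) * (b : ℝ) ^ 2 ≤ ε * M := by
    have := Nat.floor_le (show 0 ≤ ε * M / (b : ℝ) ^ 2 by positivity)
    rw [le_div_iff₀ (by positivity)] at this
    exact this
  have ht_ge : ε * M / (2 * (b : ℝ) ^ 2) ≤ t := by
    have h1 := Nat.lt_floor_add_one (ε * M / (b : ℝ) ^ 2)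
    have h2 : 2 ≤ ε * M / (b : ℝ) ^ 2 := by
      rw [le_div_iff₀ (by positivity)]; exact hεM
    have h3 : ε * M / (2 * (b : ℝ) ^ 2) = (ε * M / (b : ℝ) ^ 2) / 2 := by
      field_simp
    rw [h3]
    linarith
  have ht1 : 1 ≤ t := by
    rw [ht, Nat.one_le_floor_iff]
    rw [le_div_iff₀ (by positivity)]
    linarith
  have htpos : (0 : ℝ) < t := by exact_mod_cast ht1
  -- r
  set r : ℕ := ⌊ε * M⌋₊ with hr
  have hr_le : (r : ℝ) ≤ ε * M := Nat.floor_le (by positivity)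
  have hr_ge : ε * M / 2 ≤ r := by
    have h1 := Nat.lt_floor_add_one (ε * M)
    linarith
  -- the family
  set V : Finset ℤ := Finset.Icc (-(M : ℤ)) M with hVdef
  have hVcard : V.card = 2 * M + 1 := by
    rw [hVdef, Int.card_Icc]
    omega
  set 𝒯 : Finset (Finset ℤ) :=
    (((Finset.powersetCard b (Finset.Ico 0 (M : ℤ))) ×ˢ
      (Finset.powersetCard t (Finset.Ico 0 (M : ℤ)))).image
        (fun p => Finset.image₂ (fun z s => z - s) p.2 p.1)).filter (fun T => T.card = t * b) with h𝒯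
  have h𝒯V : ∀ T ∈ 𝒯, T ⊆ V := by
    intro T hT
    rw [h𝒯, Finset.mem_filter, Finset.mem_image] at hT
    obtain ⟨⟨⟨S, Z⟩, hp, rfl⟩, -⟩ := hT
    rw [Finset.mem_product, Finset.mem_powersetCard, Finset.mem_powersetCard] at hp
    intro x hx
    obtain ⟨z, hz, s, hs, rfl⟩ := Finset.mem_image₂.1 hx
    have hz' := Finset.mem_Ico.1 (hp.2.1 hz)
    have hs' := Finset.mem_Ico.1 (hp.1.1 hs)
    rw [hVdef, Finset.mem_Icc]
    constructor <;> omega
  have h𝒯card : (𝒯.card : ℝ) ≤ (M : ℝ) ^ b * (Real.exp 1 * M / t) ^ t := by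
    have h1 : 𝒯.card ≤ M.choose b * M.choose t := by
      calc 𝒯.card ≤ _ := Finset.card_filter_le _ _
        _ ≤ _ := Finset.card_image_le
        _ = M.choose b * M.choose t := by
          rw [Finset.card_product, Finset.card_powersetCard, Finset.card_powersetCard]
          simp
    have h2 : ((M.choose b : ℕ) : ℝ) ≤ (M : ℝ) ^ b := by
      exact_mod_cast Nat.choose_le_pow M b
    calc (𝒯.card : ℝ) ≤ (M.choose b : ℝ) * (M.choose t : ℝ) := by exact_mod_cast h1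
      _ ≤ (M : ℝ) ^ b * (Real.exp 1 * M / t) ^ t :=
        mul_le_mul h2 (choose_le M t ht1) (by positivity) (by positivity)
  have htbM : t * b ≤ V.card := by
    have h1 : (t : ℝ) * b ≤ M := by
      calc (t : ℝ) * b ≤ t * (b : ℝ) ^ 2 := by
            apply mul_le_mul_of_nonneg_left _ htpos.le
            nlinarith
        _ ≤ ε * M := ht_le
        _ ≤ 1 * M := mul_le_mul_of_nonneg_right hε1 hMpos.le
        _ = M := one_mul _
    have h2 : t * b ≤ M := by exact_mod_cast h1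
    rw [hVcard]; omega
  obtain ⟨W, hWV, hWr, hW⟩ := exists_hit V (t * b) 𝒯 h𝒯V
    (fun T hT => (Finset.mem_filter.1 hT).2.ge) htbM r
  have hzero : (𝒯.filter (fun T => Disjoint T W)).card = 0 := by
    have hx : 1 - ((t * b : ℕ) : ℝ) / V.card ≤ Real.exp (-((t : ℝ) * b / (3 * M))) := by
      have h1 : (t : ℝ) * b / (3 * M) ≤ ((t * b : ℕ) : ℝ) / V.card := by
        rw [hVcard]
        push_cast
        apply div_le_div_of_nonneg_left (by positivity) (by positivity)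
        linarith
      calc 1 - ((t * b : ℕ) : ℝ) / V.card ≤ 1 - (t : ℝ) * b / (3 * M) := by linarith
        _ ≤ Real.exp (-((t : ℝ) * b / (3 * M))) := by
          have := Real.add_one_le_exp (-((t : ℝ) * b / (3 * M)))
          linarith
    have hx0 : 0 ≤ 1 - ((t * b : ℕ) : ℝ) / V.card := by
      rw [sub_nonneg, div_le_one (by rw [hVcard]; positivity)]
      exact_mod_cast htbM
    have hpow : (1 - ((t * b : ℕ) : ℝ) / V.card) ^ r ≤ (Real.exp (-(b * ε / 6))) ^ t := by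
      calc (1 - ((t * b : ℕ) : ℝ) / V.card) ^ r ≤ (Real.exp (-((t : ℝ) * b / (3 * M)))) ^ r :=
            pow_le_pow_left₀ hx0 hx r
        _ = Real.exp (-((r : ℝ) * ((t : ℝ) * b / (3 * M)))) := by
            rw [← Real.exp_nat_mul]; ring_nf
        _ ≤ Real.exp (-((ε * M / 2) * ((t : ℝ) * b / (3 * M)))) := by
            apply Real.exp_le_exp.2
            apply neg_le_neg
            exact mul_le_mul_of_nonneg_right hr_ge (by positivity)
        _ = (Real.exp (-(b * ε / 6))) ^ t := by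
            rw [← Real.exp_nat_mul]
            congr 1
            field_simp
            ring
    have hMt : Real.exp 1 * M / t ≤ Real.exp 1 * (2 * (b : ℝ) ^ 2 / ε) := by
      rw [mul_div_assoc]
      apply mul_le_mul_of_nonneg_left _ (Real.exp_pos 1).le
      rw [div_le_div_iff₀ htpos hε]
      rw [div_le_iff₀ (by positivity)] at ht_ge
      linarith
    have hfin : ((𝒯.filter (fun T => Disjoint T W)).card : ℝ) < 1 := by
      calc ((𝒯.filter (fun T => Disjoint T W)).card : ℝ)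
          ≤ 𝒯.card * (1 - ((t * b : ℕ) : ℝ) / V.card) ^ r := hW
        _ ≤ ((M : ℝ) ^ b * (Real.exp 1 * M / t) ^ t) * (Real.exp (-(b * ε / 6))) ^ t :=
            mul_le_mul h𝒯card hpow (pow_nonneg hx0 _) (by positivity)
        _ = (M : ℝ) ^ b * (Real.exp 1 * M / t * Real.exp (-(b * ε / 6))) ^ t := by
            rw [mul_pow]; ring
        _ ≤ (M : ℝ) ^ b * (1 / 2) ^ t := by
            apply mul_le_mul_of_nonneg_left _ (by positivity)
            apply pow_le_pow_left₀ (by positivity)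
            exact (mul_le_mul_of_nonneg_right hMt (Real.exp_pos _).le).trans hb
        _ ≤ (M : ℝ) ^ b * ρ ^ M := by
            apply mul_le_mul_of_nonneg_left _ (by positivity)
            rw [hρdef, ← Real.rpow_natCast (1 / 2 : ℝ) t, ← Real.rpow_natCast _ M,
              ← Real.rpow_mul (by norm_num)]
            apply Real.rpow_le_rpow_of_exponent_ge (by norm_num) (by norm_num)
            have e : ε / (2 * (b : ℝ) ^ 2) * (M : ℝ) = ε * M / (2 * (b : ℝ) ^ 2) := by ring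
            rw [e]
            exact ht_ge
        _ < 1 := hA
    have : (𝒯.filter (fun T => Disjoint T W)).card < 1 := by exact_mod_cast hfin
    omega
  refine ⟨W, le_trans (by exact_mod_cast hWr) hr_le, fun S hS hSb => ?_⟩
  by_contra hcon
  push Not at hcon
  obtain ⟨S', hS'S, hS'b⟩ := Finset.exists_subset_card_eq hSb
  set B := (Finset.Ico 0 (M : ℤ)).filter (fun z => ∀ s ∈ S, z - s ∉ W) with hBdef
  have hBcard : t * S'.card ^ 2 ≤ B.card := by
    have : (t : ℝ) * (b : ℝ) ^ 2 ≤ B.card := ht_le.trans hcon.le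
    rw [hS'b]
    exact_mod_cast this
  have hS'ne : S'.Nonempty := by
    rw [← Finset.card_pos, hS'b]; omega
  obtain ⟨Z, hZB, hZt, hZc⟩ := exists_indep S' B hS'ne t hBcard
  have hmem : Finset.image₂ (fun z s => z - s) Z S' ∈ 𝒯.filter (fun T => Disjoint T W) := by
    rw [Finset.mem_filter]
    constructor
    · rw [h𝒯, Finset.mem_filter]
      refine ⟨Finset.mem_image.2 ⟨(S', Z), ?_, rfl⟩, by rw [hZc, hS'b]⟩
      rw [Finset.mem_product, Finset.mem_powersetCard, Finset.mem_powersetCard]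
      exact ⟨⟨hS'S.trans hS, hS'b⟩, ⟨hZB.trans (Finset.filter_subset _ _), hZt⟩⟩
    · rw [Finset.disjoint_left]
      intro x hx
      obtain ⟨z, hz, s, hs, rfl⟩ := Finset.mem_image₂.1 hx
      exact (Finset.mem_filter.1 (hZB hz)).2 s (hS'S hs)
  rw [Finset.card_eq_zero] at hzero
  rw [hzero] at hmem
  exact absurd hmem (Finset.notMem_empty _)

end Q12.NA
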