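import Pool.Agent.Q12.NA.Cover

open Finset Filter Topology MeasureTheory
open scoped Pointwise ENNReal

namespace Q12.NA

/-- The covering lemma on the line. -/
theorem coverR (ε : ℝ) (hε : 0 < ε) (hε1 : ε ≤ 1) :
    ∃ b : ℕ, 1 ≤ b ∧ ∃ M0 : ℕ, 1 ≤ M0 ∧ ∀ M : ℕ, M0 ≤ M → ∃ U : Set ℝ, IsOpen U ∧
      volume U ≤ ENNReal.ofReal (2 * ε) ∧
      ∀ X : Set ℝ, X ⊆ Set.Ico 0 1 → (b : ℕ∞) ≤ ((fun x : ℝ => ⌊(M : ℝ) * x⌋) '' X).encard →
        volume (Set.Ico (0 : ℝ) 1 \ (X + U)) ≤ ENNReal.ofReal ε := by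
  obtain ⟨b, hb1, M0, hM01, hcov⟩ := cover ε hε hε1
  refine ⟨b, hb1, M0, hM01, fun M hM => ?_⟩
  obtain ⟨W, hWc, hW⟩ := hcov M hM
  have hM1 : (1 : ℝ) ≤ M := by exact_mod_cast hM01.trans hM
  have hMpos : (0 : ℝ) < M := by linarith
  refine ⟨⋃ w ∈ W, Set.Ioo (((w : ℝ) - 1) / M) (((w : ℝ) + 1) / M), ?_, ?_, ?_⟩
  · exact isOpen_biUnion fun w _ => isOpen_Ioo
  · calc volume (⋃ w ∈ W, Set.Ioo (((w : ℝ) - 1) / M) (((w : ℝ) + 1) / M))
        ≤ ∑ w ∈ W, volume (Set.Ioo (((w : ℝ) - 1) / M) (((w : ℝ) + 1) / M)) :=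
          measure_biUnion_finset_le _ _
      _ = ∑ w ∈ W, ENNReal.ofReal (2 / M) := by
          refine Finset.sum_congr rfl fun w _ => ?_
          rw [Real.volume_Ioo]
          congr 1
          ring
      _ = ENNReal.ofReal (W.card * (2 / M)) := by
          rw [Finset.sum_const, nsmul_eq_mul, ENNReal.ofReal_mul (by positivity),
            ENNReal.ofReal_natCast]
      _ ≤ ENNReal.ofReal (2 * ε) := by
          apply ENNReal.ofReal_le_ofReal
          rw [← mul_div_assoc, div_le_iff₀ hMpos]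
          nlinarith
  · intro X hX hXb
    obtain ⟨S', hS'sub, hS'c⟩ := Set.exists_subset_encard_eq hXb
    have hfin : S'.Finite := Set.finite_of_encard_eq_coe hS'c
    set S : Finset ℤ := hfin.toFinset with hS
    have hSc : S.card = b := by
      have h1 : S'.encard = (S.card : ℕ∞) := by
        rw [hS, ← Set.encard_coe_eq_coe_finsetCard, Set.Finite.coe_toFinset]
      rw [hS'c] at h1
      exact_mod_cast h1.symm
    have hSmem : ∀ s ∈ S, ∃ x ∈ X, ⌊(M : ℝ) * x⌋ = s := by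
      intro s hs
      have : s ∈ S' := by simpa [hS] using hs
      obtain ⟨x, hx, hxs⟩ := hS'sub this
      exact ⟨x, hx, hxs⟩
    have hfloor : ∀ x : ℝ, x ∈ Set.Ico (0 : ℝ) 1 → ⌊(M : ℝ) * x⌋ ∈ Finset.Ico (0 : ℤ) M := by
      intro x hx
      rw [Finset.mem_Ico]
      constructor
      · exact Int.floor_nonneg.2 (mul_nonneg hMpos.le hx.1)
      · rw [Int.floor_lt]
        push_cast
        nlinarith [hx.2]
    have hSsub : S ⊆ Finset.Ico 0 (M : ℤ) := by
      intro s hs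
      obtain ⟨x, hx, rfl⟩ := hSmem s hs
      exact hfloor x (hX hx)
    have hbad := hW S hSsub hSc.ge
    set B := (Finset.Ico 0 (M : ℤ)).filter (fun z => ∀ s ∈ S, z - s ∉ W) with hB
    have hsub : Set.Ico (0 : ℝ) 1 \ (X + ⋃ w ∈ W, Set.Ioo (((w : ℝ) - 1) / M) (((w : ℝ) + 1) / M))
        ⊆ ⋃ z ∈ B, Set.Icc ((z : ℝ) / M) (((z : ℝ) + 1) / M) := by
      intro y hy
      have hz := hfloor y hy.1
      by_cases hzB : ⌊(M : ℝ) * y⌋ ∈ B
      · refine Set.mem_biUnion (show ⌊(M : ℝ) * y⌋ ∈ (B : Set ℤ) from hzB) ?_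
        rw [Set.mem_Icc, div_le_iff₀ hMpos, le_div_iff₀ hMpos]
        have h1 := Int.floor_le ((M : ℝ) * y)
        have h2 := Int.lt_floor_add_one ((M : ℝ) * y)
        constructor <;> linarith
      · exfalso
        rw [hB, Finset.mem_filter] at hzB
        push Not at hzB
        obtain ⟨s, hs, hsW⟩ := hzB hz
        obtain ⟨x, hx, hxs⟩ := hSmem s hs
        apply hy.2
        refine Set.mem_add.2 ⟨x, hx, y - x, ?_, by ring⟩
        refine Set.mem_biUnion (show ⌊(M : ℝ) * y⌋ - s ∈ (W : Set ℤ) from hsW) ?_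
        have h1 := Int.floor_le ((M : ℝ) * y)
        have h2 := Int.lt_floor_add_one ((M : ℝ) * y)
        have h3 := Int.floor_le ((M : ℝ) * x)
        have h4 := Int.lt_floor_add_one ((M : ℝ) * x)
        rw [hxs] at h3 h4
        rw [Set.mem_Ioo, div_lt_iff₀ hMpos, lt_div_iff₀ hMpos]
        push_cast
        constructor <;> nlinarith
    calc volume _ ≤ volume (⋃ z ∈ B, Set.Icc ((z : ℝ) / M) (((z : ℝ) + 1) / M)) := measure_mono hsub
      _ ≤ ∑ z ∈ B, volume (Set.Icc ((z : ℝ) / M) (((z : ℝ) + 1) / M)) :=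
          measure_biUnion_finset_le _ _
      _ = ∑ z ∈ B, ENNReal.ofReal (1 / M) := by
          refine Finset.sum_congr rfl fun w _ => ?_
          rw [Real.volume_Icc]
          congr 1
          ring
      _ = ENNReal.ofReal (B.card * (1 / M)) := by
          rw [Finset.sum_const, nsmul_eq_mul, ENNReal.ofReal_mul (by positivity),
            ENNReal.ofReal_natCast]
      _ ≤ ENNReal.ofReal ε := by
          apply ENNReal.ofReal_le_ofReal
          rw [← mul_div_assoc, div_le_iff₀ hMpos]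
          linarith

end Q12.NA
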