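import Pool.Agent.Q12.NA.Slalom

open Filter Topology MeasureTheory
open scoped Pointwise ENNReal

namespace Q12.NA

section Layers

variable {E : Type*} [NormedAddCommGroup E] [NormedSpace ℝ E] [FiniteDimensional ℝ E]
  [MeasurableSpace E] [BorelSpace E] [Nontrivial E] (μ : Measure E) [μ.IsAddHaarMeasure]

/-- An open set is a countable union of compact sets whose total measure is at most that of it. -/
theorem open_layers (O : Set E) (hO : IsOpen O) :
    ∃ C : ℕ → Set E, (∀ k, IsCompact (C k)) ∧ (∀ z ∈ O, ∃ k, z ∈ C k) ∧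
      ∑' k, μ (C k) ≤ μ O := by
  classical
  haveI : SecondCountableTopology E := FiniteDimensional.proper_real E |> fun h => by
    haveI := h; infer_instance
  haveI : ProperSpace E := FiniteDimensional.proper_real E
  set c : ℕ → E := fun k => TopologicalSpace.denseSeq E k.unpair.1 with hc
  set r : ℕ → ℝ := fun k => 1 / ((k.unpair.2 : ℝ) + 1) with hr
  have hrpos : ∀ k, 0 < r k := fun k => by simp only [hr]; positivity
  set B : ℕ → Set E := fun k => if Metric.closedBall (c k) (r k) ⊆ O then Metric.ball (c k) (r k) else ∅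
    with hB
  set Bc : ℕ → Set E := fun k => if Metric.closedBall (c k) (r k) ⊆ O then
    Metric.closedBall (c k) (r k) else ∅ with hBc
  have hBo : ∀ k, IsOpen (B k) := by
    intro k
    simp only [hB]
    split_ifs
    · exact Metric.isOpen_ball
    · exact isOpen_empty
  have hBcc : ∀ k, IsCompact (Bc k) := by
    intro k
    simp only [hBc]
    split_ifs
    · exact isCompact_closedBall _ _
    · exact isCompact_empty
  have hBBc : ∀ k, B k ⊆ Bc k := by
    intro k
    simp only [hB, hBc]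
    split_ifs
    · exact Metric.ball_subset_closedBall
    · exact Set.empty_subset _
  have hBcO : ∀ k, Bc k ⊆ O := by
    intro k
    simp only [hBc]
    split_ifs with h
    · exact h
    · exact Set.empty_subset _
  have hnull : ∀ k, μ (Bc k \ B k) = 0 := by
    intro k
    simp only [hB, hBc]
    split_ifs
    · apply measure_mono_null _ (Measure.addHaar_sphere μ (c k) (r k))
      intro z hz
      rw [Metric.mem_sphere]
      have h1 := Metric.mem_closedBall.1 hz.1
      have h2 : ¬ dist z (c k) < r k := fun h => hz.2 (Metric.mem_ball.2 h)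
      linarith [not_lt.1 h2]
    · simp
  have hcovO : ∀ z ∈ O, ∃ k, z ∈ B k := by
    intro z hz
    obtain ⟨δ, hδ, hδO⟩ := Metric.isOpen_iff.1 hO z hz
    obtain ⟨m, hm⟩ := exists_nat_one_div_lt (show 0 < δ / 2 by positivity)
    obtain ⟨y, hy⟩ := (TopologicalSpace.denseRange_denseSeq E).exists_dist_lt z
      (show (0 : ℝ) < 1 / ((m : ℝ) + 1) by positivity)
    refine ⟨Nat.pair y m, ?_⟩
    have hck : c (Nat.pair y m) = TopologicalSpace.denseSeq E y := by simp [hc]
    have hrk : r (Nat.pair y m) = 1 / ((m : ℝ) + 1) := by simp [hr]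
    have hsub : Metric.closedBall (c (Nat.pair y m)) (r (Nat.pair y m)) ⊆ O := by
      refine Set.Subset.trans ?_ hδO
      intro w hw
      rw [hck, hrk, Metric.mem_closedBall] at hw
      rw [Metric.mem_ball]
      calc dist w z ≤ dist w (TopologicalSpace.denseSeq E y) + dist (TopologicalSpace.denseSeq E y) z :=
            dist_triangle _ _ _
        _ < 1 / ((m : ℝ) + 1) + 1 / ((m : ℝ) + 1) := by
            rw [dist_comm (TopologicalSpace.denseSeq E y) z]
            exact add_lt_add_of_le_of_lt hw hy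
        _ < δ := by linarith
    simp only [hB]
    rw [if_pos hsub, hck, hrk, Metric.mem_ball]
    exact hy
  set C : ℕ → Set E := fun k => Bc k \ ⋃ l ∈ Finset.range k, B l with hC
  have hCc : ∀ k, IsCompact (C k) := fun k => (hBcc k).diff (isOpen_biUnion fun l _ => hBo l)
  refine ⟨C, hCc, ?_, ?_⟩
  · intro z hz
    have hex := hcovO z hz
    refine ⟨Nat.find hex, hBBc _ (Nat.find_spec hex), ?_⟩
    intro hmem
    simp only [Set.mem_iUnion, Finset.mem_range] at hmem
    obtain ⟨l, hl, hlz⟩ := hmem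
    exact Nat.find_min hex hl hlz
  · have hdis : Pairwise (Function.onFun (AEDisjoint μ) C) := by
      have key : ∀ l k, l < k → μ (C l ∩ C k) = 0 := by
        intro l k hlk
        apply measure_mono_null _ (hnull l)
        rintro z ⟨hzl, hzk⟩
        refine ⟨hzl.1, fun hzB => hzk.2 ?_⟩
        simp only [Set.mem_iUnion, Finset.mem_range]
        exact ⟨l, hlk, hzB⟩
      intro l k hlk
      rcases lt_or_gt_of_ne hlk with h | h
      · exact key l k h
      · show μ (C l ∩ C k) = 0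
        rw [Set.inter_comm]
        exact key k l h
    rw [← measure_iUnion₀ hdis (fun k => (hCc k).measurableSet.nullMeasurableSet)]
    apply measure_mono
    exact Set.iUnion_subset fun k z hz => hBcO k hz.1

/-- A null set lies in the upper limit of compact sets of prescribed small measures. -/
theorem null_limsup (N : Set E) (hN : μ N = 0) (ε : ℕ → ℝ≥0∞) (hε : ∀ n, 0 < ε n) :
    ∃ G : ℕ → Set E, (∀ n, IsCompact (G n)) ∧ (∀ n, μ (G n) < ε n) ∧
      ∀ z ∈ N, ∃ᶠ n in atTop, z ∈ G n := by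
  have h0 : ∀ i : ℕ, ∃ O : Set E, N ⊆ O ∧ IsOpen O ∧ μ O < ENNReal.ofReal ((1 / 2 : ℝ) ^ i) := by
    intro i
    obtain ⟨O, h1, h2, h3⟩ := N.exists_isOpen_lt_of_lt (μ := μ) (ENNReal.ofReal ((1 / 2 : ℝ) ^ i))
      (by rw [hN]; simp)
    exact ⟨O, h1, h2, h3⟩
  choose O hNO hOo hOμ using h0
  choose C hCc hCcov hCμ using fun i => open_layers μ (O i) (hOo i)
  set D : ℕ → Set E := fun j => C j.unpair.1 j.unpair.2 with hD
  have hDsum : ∑' j, μ (D j) ≠ ∞ := by
    have h1 : ∑' j, μ (D j) = ∑' p : ℕ × ℕ, μ (C p.1 p.2) := by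
      rw [← Nat.pairEquiv.symm.tsum_eq (fun p : ℕ × ℕ => μ (C p.1 p.2))]
      rfl
    rw [h1, ENNReal.tsum_prod']
    have h2 : ∑' i, ∑' k, μ (C i k) ≤ ∑' i : ℕ, ENNReal.ofReal ((1 / 2 : ℝ) ^ i) :=
      ENNReal.tsum_le_tsum fun i => (hCμ i).trans (hOμ i).le
    refine ne_top_of_le_ne_top ?_ h2
    rw [← ENNReal.ofReal_tsum_of_nonneg (fun n => by positivity)
        (summable_geometric_of_lt_one (by norm_num) (by norm_num))]
    exact ENNReal.ofReal_ne_top
  have hDfreq : ∀ z ∈ N, ∀ m, ∃ j ≥ m, z ∈ D j := by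
    intro z hz m
    obtain ⟨k, hk⟩ := hCcov m z (hNO m hz)
    refine ⟨Nat.pair m k, Nat.left_le_pair m k, ?_⟩
    simpa [hD] using hk
  have htail := ENNReal.tendsto_sum_nat_add (fun j => μ (D j)) hDsum
  obtain ⟨φ, hφ, hφε⟩ := extraction_forall_of_eventually'
    (P := fun n k => ∑' j, μ (D (j + k)) < ε n)
    (fun n => eventually_atTop.1 (htail.eventually (gt_mem_nhds (hε n))))
  refine ⟨fun n => ⋃ j ∈ Finset.Ico (φ n) (φ (n + 1)), D j, ?_, ?_, ?_⟩
  · intro n
    exact (Finset.Ico (φ n) (φ (n + 1))).isCompact_biUnion fun j _ => hCc _ _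
  · intro n
    calc μ (⋃ j ∈ Finset.Ico (φ n) (φ (n + 1)), D j) ≤ μ (⋃ j, D (j + φ n)) := by
          apply measure_mono
          intro z hz
          simp only [Set.mem_iUnion, Finset.mem_Ico] at hz
          obtain ⟨j, ⟨hj1, hj2⟩, hz⟩ := hz
          refine Set.mem_iUnion.2 ⟨j - φ n, ?_⟩
          rw [Nat.sub_add_cancel hj1]
          exact hz
      _ ≤ ∑' j, μ (D (j + φ n)) := measure_iUnion_le _
      _ < ε n := hφε n
  · intro z hz
    rw [frequently_atTop]
    intro m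
    obtain ⟨j, hj, hzj⟩ := hDfreq z hz (φ m)
    have hex : ∃ n, j < φ (n + 1) := ⟨j, lt_of_lt_of_le (Nat.lt_succ_self j) (hφ.id_le (j + 1))⟩
    set n := Nat.find hex with hn
    have hn1 : j < φ (n + 1) := Nat.find_spec hex
    have hmn : m ≤ n := by
      by_contra hlt
      push Not at hlt
      have : φ (n + 1) ≤ φ m := hφ.monotone hlt
      omega
    have hn2 : φ n ≤ j := by
      rcases Nat.eq_zero_or_pos n with h | h
      · have : m = n := by omega
        rw [← this]; exact hj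
      · by_contra hlt
        push Not at hlt
        have h1 : n - 1 < n := by omega
        apply Nat.find_min hex h1
        rw [Nat.sub_add_cancel h]
        exact hlt
    refine ⟨n, hmn, ?_⟩
    simp only [Set.mem_iUnion, Finset.mem_Ico]
    exact ⟨j, ⟨hn2, hn1⟩, hzj⟩

/-- One direction at a time, bounded case. -/
theorem dir_bounded (X : Set ℝ) (hXI : X ⊆ Set.Ico 0 1)
    (hX : ∀ N : Set ℝ, volume N = 0 → volume (X + N) = 0) (v : E) (hv : ‖v‖ ≤ 1)
    (N : Set E) (hN : μ N = 0) : μ (((fun x : ℝ => x • v) '' X) + N) = 0 := by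
  obtain ⟨b, M0, hM01, hsl⟩ := slalom
  set ε : ℕ → ℝ≥0∞ := fun n => ENNReal.ofReal ((1 / 2 : ℝ) ^ n / (n * b n + 1)) with hε
  have hεpos : ∀ n, 0 < ε n := by
    intro n
    simp only [hε, ENNReal.ofReal_pos]
    positivity
  obtain ⟨G, hGc, hGμ, hGN⟩ := null_limsup μ N hN ε hεpos
  have h1 : ∀ n, ∃ r : ℝ, 0 < r ∧ μ (Metric.thickening r (G n)) < ε n := by
    intro n
    obtain ⟨O, hGO, hO, hOμ⟩ := (G n).exists_isOpen_lt_of_lt (μ := μ) (ε n) (hGμ n)
    obtain ⟨r, hr, hrO⟩ := (hGc n).exists_thickening_subset_open hO hGO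
    exact ⟨r, hr, (measure_mono hrO).trans_lt hOμ⟩
  choose r hr hrμ using h1
  set M : ℕ → ℕ := fun n => max (M0 n) (⌈1 / r n⌉₊ + 1) with hM
  have hMr : ∀ n, 1 / (M n : ℝ) < r n := by
    intro n
    have h2 : 1 / r n < M n := by
      have h3 : 1 / r n ≤ ⌈1 / r n⌉₊ := Nat.le_ceil _
      have h4 : ((⌈1 / r n⌉₊ + 1 : ℕ) : ℝ) ≤ (M n : ℝ) := by
        exact_mod_cast le_max_right (M0 n) (⌈1 / r n⌉₊ + 1)
      push_cast at h4
      linarith
    have h5 : (0 : ℝ) < M n := lt_trans (by have := hr n; positivity) h2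
    rw [div_lt_iff₀ h5]
    rw [div_lt_iff₀ (hr n)] at h2
    linarith
  have hMpos : ∀ n, (0 : ℝ) < M n := by
    intro n
    have : 1 ≤ M n := (hM01 n).trans (le_max_left _ _)
    exact_mod_cast this
  obtain ⟨A, hAc, hAx⟩ := hsl X hXI hX M (fun n => le_max_left _ _)
  set T : ℕ → Set E := fun n => ⋃ a ∈ A n,
    ((fun z => (((a : ℝ) / M n) • v) + z) '' Metric.thickening (r n) (G n)) with hT
  have hTμ : ∀ n, μ (T n) ≤ ENNReal.ofReal ((1 / 2 : ℝ) ^ n) := by
    intro n
    calc μ (T n) ≤ ∑ a ∈ A n, μ ((fun z => (((a : ℝ) / M n) • v) + z) ''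
            Metric.thickening (r n) (G n)) := measure_biUnion_finset_le _ _
      _ = ∑ a ∈ A n, μ (Metric.thickening (r n) (G n)) := by
          refine Finset.sum_congr rfl fun a _ => ?_
          rw [Set.image_add_left, measure_preimage_add]
      _ ≤ ∑ a ∈ A n, ε n := Finset.sum_le_sum fun a _ => (hrμ n).le
      _ = ENNReal.ofReal ((A n).card * ((1 / 2 : ℝ) ^ n / (n * b n + 1))) := by
          rw [Finset.sum_const, nsmul_eq_mul, ENNReal.ofReal_mul (by positivity),
            ENNReal.ofReal_natCast]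
      _ ≤ ENNReal.ofReal ((1 / 2 : ℝ) ^ n) := by
          apply ENNReal.ofReal_le_ofReal
          have h2 : ((A n).card : ℝ) ≤ n * b n + 1 := by
            have : ((A n).card : ℝ) ≤ n * b n := by exact_mod_cast hAc n
            linarith
          rw [← mul_div_assoc, div_le_iff₀ (by positivity), mul_comm]
          exact mul_le_mul_of_nonneg_left h2 (by positivity)
  have hlim : μ (limsup T atTop) = 0 := by
    apply measure_limsup_atTop_eq_zero
    refine ne_top_of_le_ne_top ?_ (ENNReal.tsum_le_tsum hTμ)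
    rw [← ENNReal.ofReal_tsum_of_nonneg (fun n => by positivity)
        (summable_geometric_of_lt_one (by norm_num) (by norm_num))]
    exact ENNReal.ofReal_ne_top
  apply measure_mono_null _ hlim
  intro w hw
  obtain ⟨_, ⟨x, hx, rfl⟩, z, hz, rfl⟩ := Set.mem_add.1 hw
  rw [Filter.mem_limsup_iff_frequently_mem]
  refine ((hGN z hz).and_eventually (hAx x hx)).mono ?_
  rintro n ⟨hzG, hxA⟩
  simp only [hT, Set.mem_iUnion]
  refine ⟨⌊(M n : ℝ) * x⌋, hxA, ?_⟩
  refine ⟨(x - (⌊(M n : ℝ) * x⌋ : ℝ) / M n) • v + z, ?_, ?_⟩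
  · rw [Metric.mem_thickening_iff]
    refine ⟨z, hzG, ?_⟩
    rw [dist_eq_norm, add_sub_cancel_right, norm_smul]
    have h3 := Int.floor_le ((M n : ℝ) * x)
    have h4 := Int.lt_floor_add_one ((M n : ℝ) * x)
    have h5 : ‖x - (⌊(M n : ℝ) * x⌋ : ℝ) / M n‖ ≤ 1 / M n := by
      rw [Real.norm_eq_abs, abs_le]
      have hMn := hMpos n
      constructor
      · have : (⌊(M n : ℝ) * x⌋ : ℝ) / M n ≤ x := by
          rw [div_le_iff₀ hMn]; linarith
        have : 0 < 1 / (M n : ℝ) := by positivity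
        linarith
      · rw [sub_le_iff_le_add, ← add_div, le_div_iff₀ hMn]
        linarith
    calc ‖x - (⌊(M n : ℝ) * x⌋ : ℝ) / M n‖ * ‖v‖ ≤ (1 / M n) * 1 :=
          mul_le_mul h5 hv (norm_nonneg _) (by have := hMpos n; positivity)
      _ < r n := by rw [mul_one]; exact hMr n
  · show ((⌊(M n : ℝ) * x⌋ : ℝ) / M n) • v + ((x - (⌊(M n : ℝ) * x⌋ : ℝ) / M n) • v + z) = x • v + z
    rw [sub_smul]
    abel

/-- One direction at a time. -/
theorem dir (X : Set ℝ) (hX : ∀ N : Set ℝ, volume N = 0 → volume (X + N) = 0) (v : E)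
    (hv : ‖v‖ ≤ 1) (N : Set E) (hN : μ N = 0) : μ (((fun x : ℝ => x • v) '' X) + N) = 0 := by
  set Y : ℤ → Set ℝ := fun k => {x | x ∈ Set.Ico (0 : ℝ) 1 ∧ x + k ∈ X} with hY
  have hYa : ∀ k, ∀ N : Set ℝ, volume N = 0 → volume (Y k + N) = 0 := by
    intro k N hN
    have h1 : Y k + N ⊆ X + ((fun y : ℝ => (-(k : ℝ)) + y) '' N) := by
      intro w hw
      obtain ⟨y, hy, z, hz, rfl⟩ := Set.mem_add.1 hw
      exact Set.mem_add.2 ⟨y + k, hy.2, -(k : ℝ) + z, ⟨z, hz, rfl⟩, by ring⟩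
    apply measure_mono_null h1
    apply hX
    rw [Set.image_add_left, measure_preimage_add, hN]
  have hsub : ((fun x : ℝ => x • v) '' X) + N ⊆
      ⋃ k : ℤ, (((fun x : ℝ => x • v) '' Y k) + ((fun z => ((k : ℝ) • v) + z) '' N)) := by
    intro w hw
    obtain ⟨_, ⟨x, hx, rfl⟩, z, hz, rfl⟩ := Set.mem_add.1 hw
    refine Set.mem_iUnion.2 ⟨⌊x⌋, Set.mem_add.2 ⟨(x - ⌊x⌋) • v, ⟨x - ⌊x⌋, ⟨⟨?_, ?_⟩, ?_⟩, rfl⟩,
      ((⌊x⌋ : ℤ) : ℝ) • v + z, ⟨z, hz, rfl⟩, ?_⟩⟩
    · linarith [Int.floor_le x]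
    · linarith [Int.lt_floor_add_one x]
    · rw [sub_add_cancel]; exact hx
    · rw [sub_smul]; abel
  apply measure_mono_null hsub
  rw [measure_iUnion_null_iff]
  intro k
  apply dir_bounded μ (Y k) (fun x hx => hx.1) (hYa k) v hv
  rw [Set.image_add_left, measure_preimage_add, hN]

end Layers

/-- Products of null-additive sets. -/
theorem prod_null (X Y : Set ℝ) (hX : ∀ N : Set ℝ, volume N = 0 → volume (X + N) = 0)
    (hY : ∀ N : Set ℝ, volume N = 0 → volume (Y + N) = 0) (N : Set (ℝ × ℝ)) (hN : volume N = 0) :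
    volume ((X ×ˢ Y) + N) = 0 := by
  have h1 := dir (volume : Measure (ℝ × ℝ)) Y hY ((0 : ℝ), (1 : ℝ)) (by simp [Prod.norm_def]) N hN
  have h2 := dir (volume : Measure (ℝ × ℝ)) X hX ((1 : ℝ), (0 : ℝ)) (by simp [Prod.norm_def]) _ h1
  apply measure_mono_null _ h2
  intro w hw
  obtain ⟨p, hp, z, hz, rfl⟩ := Set.mem_add.1 hw
  refine Set.mem_add.2 ⟨p.1 • ((1 : ℝ), (0 : ℝ)), ⟨p.1, hp.1, rfl⟩, p.2 • ((0 : ℝ), (1 : ℝ)) + z,
    Set.mem_add.2 ⟨p.2 • ((0 : ℝ), (1 : ℝ)), ⟨p.2, hp.2, rfl⟩, z, hz, rfl⟩, ?_⟩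
  ext <;> simp

end Q12.NA
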