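import Pool.Agent.Q12.NA.Open

open Filter Topology MeasureTheory
open scoped Pointwise ENNReal

namespace Q12.NA

/-- A compact set with no relatively open null part avoiding a null set. -/
theorem exists_kernel (A : Set ℝ) (hA : volume A = 0) :
    ∃ K : Set ℝ, IsCompact K ∧ K.Nonempty ∧ K ⊆ Set.Ico 0 1 ∧ Disjoint K A ∧
      ∀ p q : ℚ, (K ∩ Set.Ioo (p : ℝ) q).Nonempty → 0 < volume (K ∩ Set.Ioo (p : ℝ) q) := by
  set S : Set ℝ := Set.Ico 0 1 \ toMeasurable volume A with hS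
  have hSm : MeasurableSet S := measurableSet_Ico.diff (measurableSet_toMeasurable _ _)
  have hSv : volume S = 1 := by
    rw [hS, measure_sdiff_null (by rw [measure_toMeasurable, hA])]
    simp
  obtain ⟨K, hKS, hKc, hK0⟩ := hSm.exists_lt_isCompact (μ := volume) (r := 0) (by rw [hSv]; exact one_pos)
  set I : Set (ℚ × ℚ) := {i | volume (K ∩ Set.Ioo (i.1 : ℝ) i.2) = 0} with hI
  set O : Set ℝ := ⋃ i ∈ I, Set.Ioo (i.1 : ℝ) i.2 with hO
  have hOo : IsOpen O := isOpen_biUnion fun i _ => isOpen_Ioo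
  have hKO : volume (K ∩ O) = 0 := by
    have h1 : K ∩ O = ⋃ i ∈ I, (K ∩ Set.Ioo (i.1 : ℝ) i.2) := by
      rw [hO, Set.inter_iUnion₂]
    rw [h1, measure_biUnion_null_iff (Set.to_countable I)]
    exact fun i hi => hi
  have hvol : ∀ T : Set ℝ, volume ((K \ O) ∩ T) = volume (K ∩ T) := by
    intro T
    apply le_antisymm (measure_mono (Set.inter_subset_inter_left _ Set.sdiff_subset))
    calc volume (K ∩ T) ≤ volume (((K \ O) ∩ T) ∪ (K ∩ O)) := by
          apply measure_mono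
          rintro y ⟨hy1, hy2⟩
          by_cases hyO : y ∈ O
          · exact Or.inr ⟨hy1, hyO⟩
          · exact Or.inl ⟨⟨hy1, hyO⟩, hy2⟩
      _ ≤ volume ((K \ O) ∩ T) + volume (K ∩ O) := measure_union_le _ _
      _ = volume ((K \ O) ∩ T) := by rw [hKO, add_zero]
  refine ⟨K \ O, hKc.diff hOo, ?_, ?_, ?_, ?_⟩
  · by_contra hne
    rw [Set.not_nonempty_iff_eq_empty] at hne
    have := hvol Set.univ
    rw [hne, Set.inter_univ, Set.inter_univ, measure_empty] at this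
    rw [← this] at hK0
    exact lt_irrefl _ hK0
  · exact fun y hy => (hKS hy.1).1
  · rw [Set.disjoint_left]
    intro y hy hyA
    exact (hKS hy.1).2 (subset_toMeasurable _ _ hyA)
  · intro p q hne
    rw [hvol]
    rw [pos_iff_ne_zero]
    intro h0
    obtain ⟨y, hy, hyJ⟩ := hne
    apply hy.2
    exact Set.mem_biUnion (show (p, q) ∈ I from h0) hyJ

theorem baire_piece (K : Set ℝ) (hK : IsCompact K) (hKne : K.Nonempty) (U : ℕ → Set ℝ)
    (hU : ∀ n, IsOpen (U n)) (x : ℝ) (hx : ∀ y ∈ K, ∃ m, ∀ n ≥ m, y - x ∉ U n) :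
    ∃ m : ℕ, ∃ p q : ℚ, (K ∩ Set.Ioo (p : ℝ) q).Nonempty ∧
      ∀ n ≥ m, ∀ y ∈ K ∩ Set.Ioo (p : ℝ) q, y - x ∉ U n := by
  haveI : CompactSpace K := isCompact_iff_compactSpace.1 hK
  haveI : Nonempty K := hKne.to_subtype
  set f : ℕ → Set K := fun m => {y : K | ∃ n ≥ m, (y : ℝ) - x ∈ U n} with hf
  have hfo : ∀ m, IsOpen (f m) := by
    intro m
    have : f m = ⋃ n ≥ m, (fun y : K => (y : ℝ) - x) ⁻¹' (U n) := by
      ext y
      simp [hf]
    rw [this]
    exact isOpen_biUnion fun n _ => (hU n).preimage (by fun_prop)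
  have hnd : ∃ m, ¬ Dense (f m) := by
    by_contra hcon
    push Not at hcon
    have hd := dense_iInter_of_isOpen_nat hfo hcon
    obtain ⟨y, hy⟩ := hd.nonempty
    obtain ⟨m, hm⟩ := hx y y.2
    rw [Set.mem_iInter] at hy
    obtain ⟨n, hn, hyn⟩ := hy m
    exact hm n hn hyn
  obtain ⟨m, hm⟩ := hnd
  rw [dense_iff_inter_open] at hm
  push Not at hm
  obtain ⟨V, hVo, hVne, hVf⟩ := hm
  obtain ⟨O, hO, rfl⟩ := isOpen_induced_iff.1 hVo
  obtain ⟨y, hy⟩ := hVne
  obtain ⟨J, hJ, hyJ, hJO⟩ := Real.isTopologicalBasis_Ioo_rat.exists_subset_of_mem_open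
    (show (y : ℝ) ∈ O from hy) hO
  simp only [Set.mem_iUnion, Set.mem_singleton_iff] at hJ
  obtain ⟨p, q, -, rfl⟩ := hJ
  refine ⟨m, p, q, ⟨y, y.2, hyJ⟩, ?_⟩
  rintro n hn z ⟨hzK, hzJ⟩ hzU
  have : (⟨z, hzK⟩ : K) ∈ (Subtype.val ⁻¹' O) ∩ f m := ⟨hJO hzJ, n, hn, hzU⟩
  rw [hVf] at this
  exact this

open Classical in
/-- The finite set given by a set of integers of small cardinality. -/
noncomputable def fin (T : Set ℤ) (b : ℕ) : Finset ℤ :=
  if h : T.encard < (b : ℕ∞) then (Set.finite_of_encard_le_coe h.le).toFinset else ∅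

theorem card_fin (T : Set ℤ) (b : ℕ) : (fin T b).card ≤ b := by
  unfold fin
  split_ifs with h
  · have h1 : (((Set.finite_of_encard_le_coe h.le).toFinset).card : ℕ∞) = T.encard := by
      rw [← Set.encard_coe_eq_coe_finsetCard, Set.Finite.coe_toFinset]
    have h2 : (((Set.finite_of_encard_le_coe h.le).toFinset).card : ℕ∞) ≤ b := by
      rw [h1]; exact h.le
    exact_mod_cast h2
  · simp

theorem mem_fin {T : Set ℤ} {b : ℕ} (h : T.encard < (b : ℕ∞)) {t : ℤ} (ht : t ∈ T) : t ∈ fin T b := by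
  unfold fin
  rw [dif_pos h]
  simpa using ht

/-- Slaloms for sets of reals which are additive for the null ideal. -/
theorem slalom : ∃ (b M0 : ℕ → ℕ), (∀ n, 1 ≤ M0 n) ∧ ∀ X : Set ℝ, X ⊆ Set.Ico 0 1 →
    (∀ N : Set ℝ, volume N = 0 → volume (X + N) = 0) → ∀ M : ℕ → ℕ, (∀ n, M0 n ≤ M n) →
    ∃ A : ℕ → Finset ℤ, (∀ n, (A n).card ≤ n * b n) ∧
      ∀ x ∈ X, ∀ᶠ n in atTop, ⌊(M n : ℝ) * x⌋ ∈ A n := by
  have h0 := fun n : ℕ => coverR ((1 / 2 : ℝ) ^ n) (by positivity)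
    (pow_le_one₀ (by norm_num) (by norm_num))
  choose b hb1 M0 hM01 hcov using h0
  refine ⟨b, M0, hM01, fun X hX hXN M hM => ?_⟩
  choose U hUo hUv hUX using fun n => hcov n (M n) (hM n)
  -- the null set
  have hsum : ∑' n, volume (U n) ≠ ∞ := by
    have h1 : ∑' n, volume (U n) ≤ ∑' n : ℕ, ENNReal.ofReal (2 * (1 / 2 : ℝ) ^ n) :=
      ENNReal.tsum_le_tsum hUv
    have h2 : ∑' n : ℕ, ENNReal.ofReal (2 * (1 / 2 : ℝ) ^ n) ≠ ∞ := by
      rw [← ENNReal.ofReal_tsum_of_nonneg (fun n => by positivity)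
        ((summable_geometric_of_lt_one (by norm_num) (by norm_num)).mul_left 2)]
      exact ENNReal.ofReal_ne_top
    exact ne_top_of_le_ne_top h2 h1
  have hN : volume (limsup U atTop) = 0 := measure_limsup_atTop_eq_zero hsum
  obtain ⟨K, hKc, hKne, hKI, hKd, hKp⟩ := exists_kernel (X + limsup U atTop) (hXN _ hN)
  -- pieces
  set P : ℕ × ℚ × ℚ → Set ℝ := fun i => {x ∈ X | (K ∩ Set.Ioo (i.2.1 : ℝ) i.2.2).Nonempty ∧
    ∀ n ≥ i.1, ∀ y ∈ K ∩ Set.Ioo (i.2.1 : ℝ) i.2.2, y - x ∉ U n} with hP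
  have hcovX : ∀ x ∈ X, ∃ i, x ∈ P i := by
    intro x hx
    obtain ⟨m, p, q, h1, h2⟩ := baire_piece K hKc hKne U hUo x (by
      intro y hy
      by_contra hcon
      push Not at hcon
      apply Set.disjoint_left.1 hKd hy
      refine Set.mem_add.2 ⟨x, hx, y - x, ?_, by ring⟩
      rw [Filter.mem_limsup_iff_frequently_mem, Filter.frequently_atTop]
      intro m
      obtain ⟨n, hn, hyn⟩ := hcon m
      exact ⟨n, hn, hyn⟩)
    exact ⟨(m, p, q), hx, h1, h2⟩
  have hsmall : ∀ i, ∀ᶠ n in atTop, ((fun x : ℝ => ⌊(M n : ℝ) * x⌋) '' P i).encard < (b n : ℕ∞) := by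
    intro i
    by_cases hne : (K ∩ Set.Ioo (i.2.1 : ℝ) i.2.2).Nonempty
    · have hδ := hKp i.2.1 i.2.2 hne
      have hlim : Tendsto (fun n : ℕ => ENNReal.ofReal ((1 / 2 : ℝ) ^ n)) atTop (𝓝 0) := by
        have h1 : Tendsto (fun n : ℕ => (1 / 2 : ℝ) ^ n) atTop (𝓝 0) :=
          tendsto_pow_atTop_nhds_zero_of_lt_one (by norm_num) (by norm_num)
        simpa using (ENNReal.tendsto_ofReal h1)
      filter_upwards [hlim.eventually (gt_mem_nhds hδ), eventually_ge_atTop i.1] with n hn hni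
      by_contra hcon
      push Not at hcon
      have h1 := hUX n (P i) (fun x hx => hX hx.1) hcon
      have h2 : K ∩ Set.Ioo (i.2.1 : ℝ) i.2.2 ⊆ Set.Ico (0 : ℝ) 1 \ (P i + U n) := by
        intro y hy
        refine ⟨hKI hy.1, ?_⟩
        intro hyU
        obtain ⟨x, hx, u, hu, hxu⟩ := Set.mem_add.1 hyU
        apply hx.2.2 n hni y hy
        have : y - x = u := by rw [← hxu]; ring
        rw [this]
        exact hu
      exact absurd ((measure_mono h2).trans h1) (not_le.2 hn)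
    · refine Eventually.of_forall fun n => ?_
      have hPe : P i = ∅ := by
        rw [Set.eq_empty_iff_forall_notMem]
        intro x hx
        exact hne hx.2.1
      rw [hPe, Set.image_empty, Set.encard_empty]
      exact_mod_cast hb1 n
  -- merge
  obtain ⟨e⟩ : Nonempty (ℕ ≃ ℕ × ℚ × ℚ) := ⟨(Denumerable.eqv (ℕ × ℚ × ℚ)).symm⟩
  classical
  refine ⟨fun n => (Finset.range n).biUnion
    (fun k => fin ((fun x : ℝ => ⌊(M n : ℝ) * x⌋) '' P (e k)) (b n)), fun n => ?_, fun x hx => ?_⟩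
  · calc _ ≤ ∑ k ∈ Finset.range n, (fin ((fun x : ℝ => ⌊(M n : ℝ) * x⌋) '' P (e k)) (b n)).card :=
          Finset.card_biUnion_le
      _ ≤ ∑ k ∈ Finset.range n, b n := Finset.sum_le_sum fun k _ => card_fin _ _
      _ = n * b n := by simp
  · obtain ⟨i, hi⟩ := hcovX x hx
    filter_upwards [hsmall i, eventually_gt_atTop (e.symm i)] with n hn hni
    rw [Finset.mem_biUnion]
    refine ⟨e.symm i, Finset.mem_range.2 hni, ?_⟩
    rw [Equiv.apply_symm_apply]
    exact mem_fin hn ⟨x, hi, rfl⟩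

end Q12.NA
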